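import Mathlib

namespace Pool.Agent.H.MP_20d9b9_al

/-- `R`, with coefficient map `c`, is the skew Laurent series ring over `A` twisted by `φ` -/
structure IsSL {A R : Type} [Ring A] [Ring R] (φ : RingAut A) (c : R →+ ℤ → A) : Prop where
  inj : Function.Injective c
  rng : ∀ f : ℤ → A, f ∈ Set.range c ↔ BddBelow (Function.support f)
  mul : ∀ r s n, c (r * s) n = ∑ᶠ i : ℤ, c r i * (φ ^ i) (c s (n - i))

section ex
variable {A : Type} [Ring A] (φ : RingAut A)

lemma zp_add (i j : ℤ) (a : A) : (φ ^ (i + j)) a = (φ ^ i) ((φ ^ j) a) := by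
  rw [zpow_add, RingAut.mul_apply]

@[simp] lemma zp_zero (a : A) : (φ ^ (0 : ℤ)) a = a := by
  rw [zpow_zero, RingAut.one_apply]

lemma zp_neg (i : ℤ) (a : A) : (φ ^ (-i)) ((φ ^ i) a) = a := by
  rw [← zp_add, neg_add_cancel, zp_zero]

lemma zp_neg' (i : ℤ) (a : A) : (φ ^ i) ((φ ^ (-i)) a) = a := by
  rw [← zp_add, add_neg_cancel, zp_zero]

def SL : Subring (HahnSeries ℤ (Module.End ℤ A)) where
  carrier := {F | ∀ i b, F.coeff i b = F.coeff i 1 * (φ ^ i) b}
  zero_mem' := by intro i b; simp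
  one_mem' := by
    intro i b
    rw [HahnSeries.coeff_one]
    split_ifs with h
    · subst h; simp
    · simp
  add_mem' := by
    intro F G hF hG i b
    simp only [HahnSeries.coeff_add, LinearMap.add_apply]
    rw [hF i b, hG i b, add_mul]
  neg_mem' := by
    intro F hF i b
    simp only [HahnSeries.coeff_neg]
    change -(F.coeff i b) = -(F.coeff i 1) * _
    rw [hF i b, neg_mul]
  mul_mem' := by
    intro F G hF hG n b
    simp only [HahnSeries.coeff_mul]
    rw [LinearMap.sum_apply, LinearMap.sum_apply, Finset.sum_mul]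
    refine Finset.sum_congr rfl fun ij hij => ?_
    have h := (Finset.mem_antidiagonal.1 hij).2.2
    change F.coeff ij.1 (G.coeff ij.2 b) = F.coeff ij.1 (G.coeff ij.2 1) * _
    rw [hF ij.1 (G.coeff ij.2 b), hF ij.1 (G.coeff ij.2 1), hG ij.2 b, map_mul, ← h, zp_add,
      mul_assoc]

def cSL : SL φ →+ ℤ → A where
  toFun F i := F.1.coeff i 1
  map_zero' := by funext i; simp
  map_add' F G := by funext i; rfl

lemma isSL : IsSL φ (cSL φ) where
  inj := by
    intro F G h
    apply Subtype.ext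
    ext i b
    rw [F.2 i b, G.2 i b]
    congr 1
    exact congrFun h i
  rng := by
    intro f
    constructor
    · rintro ⟨F, rfl⟩
      have hb : BddBelow F.1.support := ⟨F.1.order, fun i hi => HahnSeries.order_le_of_coeff_ne_zero hi⟩
      refine hb.mono ?_
      intro i hi h0
      apply hi
      change F.1.coeff i 1 = 0
      rw [h0]; rfl
    · intro hf
      let g : ℤ → Module.End ℤ A := fun i =>
        ((AddMonoidHom.mulLeft (f i)).comp (φ ^ i).toAddMonoidHom).toIntLinearMap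
      have hg : ∀ i b, g i b = f i * (φ ^ i) b := fun i b => rfl
      have hb : BddBelow (Function.support g) := by
        refine hf.mono ?_
        intro i hi h0
        apply hi
        ext b
        rw [hg, h0, zero_mul]; rfl
      refine ⟨⟨HahnSeries.ofSuppBddBelow g hb, ?_⟩, ?_⟩
      · intro i b
        simp [hg]
      · funext i
        simp [cSL, hg]
  mul := by
    intro F G n
    classical
    change (F.1 * G.1).coeff n 1 = _
    rw [HahnSeries.coeff_mul, LinearMap.sum_apply,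
      finsum_eq_sum_of_support_subset (s := (Finset.antidiagonal F.1.isPWO_support
        G.1.isPWO_support n).image Prod.fst), Finset.sum_image]
    · refine Finset.sum_congr rfl fun ij hij => ?_
      have h := (Finset.mem_antidiagonal.1 hij).2.2
      change F.1.coeff ij.1 (G.1.coeff ij.2 1) = F.1.coeff ij.1 1 * (φ ^ ij.1) (G.1.coeff _ 1)
      rw [F.2, ← h, add_sub_cancel_left]
    · intro x hx y hy hxy
      have h1 := (Finset.mem_antidiagonal.1 hx).2.2
      have h2 := (Finset.mem_antidiagonal.1 hy).2.2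
      ext
      · exact hxy
      · omega
    · intro i hi
      simp only [Finset.coe_image, Set.mem_image, Finset.mem_coe]
      refine ⟨(i, n - i), Finset.mem_antidiagonal.2 ⟨?_, ?_, by simp⟩, rfl⟩
      · intro h0
        apply hi
        change F.1.coeff i 1 * _ = 0
        rw [h0]; simp
      · intro h0
        apply hi
        change _ * (φ ^ i) (G.1.coeff (n - i) 1) = 0
        rw [h0]; simp

end ex

namespace IsSL
variable {A R : Type} [Ring A] [Ring R] {φ : RingAut A} {c : R →+ ℤ → A} (h : IsSL φ c)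
include h

lemma ext {r s : R} (e : ∀ n, c r n = c s n) : r = s := h.inj (funext e)

lemma ex (f : ℤ → A) (d : ℤ) (hf : ∀ i < d, f i = 0) : ∃ r, c r = f :=
  (h.rng f).2 ⟨d, fun i hi => by
    by_contra hlt
    exact hi (hf i (not_le.1 hlt))⟩

lemma bdd (r : R) : ∃ d : ℤ, ∀ i < d, c r i = 0 := by
  obtain ⟨d, hd⟩ := (h.rng (c r)).1 ⟨r, rfl⟩
  refine ⟨d, fun i hi => ?_⟩
  by_contra hne
  exact absurd (hd hne) (not_le.2 hi)

noncomputable def mon (d : ℤ) (a : A) : R :=
  (h.ex (Pi.single d a) d fun _ hi => Pi.single_eq_of_ne hi.ne _).choose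

lemma c_mon (d : ℤ) (a : A) : c (h.mon d a) = Pi.single d a :=
  (h.ex (Pi.single d a) d fun _ hi => Pi.single_eq_of_ne hi.ne _).choose_spec

lemma mon_mul (d : ℤ) (a : A) (s : R) (n : ℤ) :
    c (h.mon d a * s) n = a * (φ ^ d) (c s (n - d)) := by
  rw [h.mul, finsum_eq_single _ d, c_mon, Pi.single_eq_same]
  intro i hi
  rw [c_mon, Pi.single_eq_of_ne hi, zero_mul]

lemma mul_mon (d : ℤ) (a : A) (r : R) (n : ℤ) :
    c (r * h.mon d a) n = c r (n - d) * (φ ^ (n - d)) a := by
  rw [h.mul, finsum_eq_single _ (n - d), c_mon, sub_sub_cancel, Pi.single_eq_same]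
  intro i hi
  rw [c_mon, Pi.single_eq_of_ne (by omega), map_zero, mul_zero]

lemma one_eq : (1 : R) = h.mon 0 1 := by
  have : h.mon 0 1 * 1 = 1 := h.ext fun n => by rw [mon_mul]; simp
  rw [← this, mul_one]

lemma c_one : c 1 = Pi.single 0 1 := by rw [h.one_eq, c_mon]

lemma mon_mon (d e : ℤ) (a b : A) : h.mon d a * h.mon e b = h.mon (d + e) (a * (φ ^ d) b) :=
  h.ext fun n => by
    rw [mon_mul, c_mon, c_mon]
    by_cases hn : n = d + e
    · subst hn; simp
    · rw [Pi.single_eq_of_ne hn, Pi.single_eq_of_ne (by omega), map_zero, mul_zero]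

lemma mon_add (d : ℤ) (a b : A) : h.mon d (a + b) = h.mon d a + h.mon d b :=
  h.inj (by rw [map_add, c_mon, c_mon, c_mon, Pi.single_add])

lemma mon_zero (d : ℤ) : h.mon d 0 = 0 :=
  h.inj (by rw [map_zero, c_mon, Pi.single_zero])

lemma low {r s : R} {d e : ℤ} (hr : ∀ i < d, c r i = 0) (hs : ∀ i < e, c s i = 0) :
    ∀ n < d + e, c (r * s) n = 0 := by
  intro n hn
  rw [h.mul]
  apply finsum_eq_zero_of_forall_eq_zero
  intro i
  by_cases hi : i < d
  · rw [hr i hi, zero_mul]
  · rw [hs _ (by omega), map_zero, mul_zero]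

lemma lead {r s : R} {d e : ℤ} (hr : ∀ i < d, c r i = 0) (hs : ∀ i < e, c s i = 0) :
    c (r * s) (d + e) = c r d * (φ ^ d) (c s e) := by
  rw [h.mul, finsum_eq_single _ d, add_sub_cancel_left]
  intro i hi
  by_cases hi' : i < d
  · rw [hr i hi', zero_mul]
  · rw [hs _ (by omega), map_zero, mul_zero]

lemma ex_min (r : R) (P : A → Prop) (h0 : ¬ P 0) (hP : ∃ i, P (c r i)) :
    ∃ d, P (c r d) ∧ ∀ i < d, ¬ P (c r i) := by
  obtain ⟨b, hb⟩ := h.bdd r
  obtain ⟨d, hd, hmin⟩ := Int.exists_least_of_bdd (P := fun i => P (c r i))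
    ⟨b, fun z hz => by
      by_contra hlt
      rw [hb z (not_le.1 hlt)] at hz
      exact h0 hz⟩ hP
  exact ⟨d, hd, fun i hi hPi => absurd (hmin i hPi) (not_le.2 hi)⟩

lemma ex_lead {r : R} (hr : r ≠ 0) : ∃ d, c r d ≠ 0 ∧ ∀ i < d, c r i = 0 := by
  obtain ⟨d, h1, h2⟩ := h.ex_min r (· ≠ 0) (by simp) (by
    by_contra hc
    push Not at hc
    exact hr (h.ext fun n => by simp [hc n]))
  exact ⟨d, h1, fun i hi => not_not.1 (h2 i hi)⟩

omit h in
noncomputable def linv (φ : RingAut A) (f : ℤ → A) : ℕ → A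
  | n => if n = 0 then 1 else
      -∑ i : Fin n, linv φ f i * (φ ^ (i : ℤ)) (f ((n : ℤ) - i))
decreasing_by exact i.2

lemma left_inv_one {r : R} (hr : ∀ i < 0, c r i = 0) (h1 : c r 0 = 1) : ∃ z, z * r = 1 := by
  obtain ⟨z, hz⟩ := h.ex (fun i => if i < 0 then 0 else linv φ (c r) i.toNat) 0
    (fun i hi => if_pos hi)
  have hz0 : ∀ i < 0, c z i = 0 := fun i hi => by rw [hz]; exact if_pos hi
  have hz1 : ∀ i : ℕ, c z i = linv φ (c r) i := fun i => by
    rw [hz]; simp
  refine ⟨z, h.ext fun n => ?_⟩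
  rw [h.c_one]
  by_cases hn : n < 0
  · rw [h.low hz0 hr n (by omega), Pi.single_eq_of_ne hn.ne]
  obtain ⟨m, rfl⟩ : ∃ m : ℕ, n = m := ⟨n.toNat, by omega⟩
  rw [h.mul, finsum_eq_sum_of_support_subset
    (s := (Finset.range (m + 1)).image (fun i : ℕ => (i : ℤ))), Finset.sum_image (by simp)]
  · rw [Finset.sum_range_succ, sub_self, h1, map_one, mul_one, hz1 m, linv]
    by_cases hm : m = 0
    · subst hm; simp
    · rw [if_neg hm, Pi.single_eq_of_ne (by omega), Finset.sum_range, add_neg_eq_zero]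
      refine Finset.sum_congr rfl fun i _ => ?_
      rw [hz1]
  · intro i hi
    simp only [Finset.coe_image, Finset.coe_range, Set.mem_image, Set.mem_Iio]
    have h1 : ¬ i < 0 := fun hlt => hi (by simp [hz0 i hlt])
    have h2 : ¬ (m : ℤ) - i < 0 := fun hlt => hi (by simp [hr _ hlt])
    exact ⟨i.toNat, by omega, by omega⟩

lemma left_inv {r : R} {d : ℤ} (hr : ∀ i < d, c r i = 0) (h1 : ∃ b, b * c r d = 1) :
    ∃ z, z * r = 1 := by
  obtain ⟨b, hb⟩ := h1
  obtain ⟨z, hz⟩ := h.left_inv_one (r := h.mon (-d) ((φ ^ (-d)) b) * r)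
    (fun i hi => by rw [mon_mul, hr _ (by omega), map_zero, mul_zero])
    (by rw [mon_mul, ← map_mul, zero_sub, neg_neg, hb, map_one])
  exact ⟨z * h.mon (-d) ((φ ^ (-d)) b), by rw [mul_assoc, hz]⟩

end IsSL

end Pool.Agent.H.MP_20d9b9_al
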