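import Mathlib
import Pool.Agent.H.MP_20d9b9_al.SL

namespace Pool.Agent.H.MP_20d9b9_al

section A
variable {A : Type} [Ring A]

structure Orth (ε : ℕ → A) : Prop where
  ne : ∀ k, ε k ≠ 0
  id : ∀ k, ε k * ε k = ε k
  orth : ∀ j k, j ≠ k → ε j * ε k = 0

lemma not_art (L : Submodule A A) (η : ℕ → A) (hη : Orth η) (hL : ∀ k, η k ∈ L) :
    ¬ IsArtinian A L := by
  intro hA
  let f : ℕ → Submodule A L := fun t =>
    { carrier := {y | ∀ k < t, (y : A) * η k = 0}
      zero_mem' := by intro k _; simp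
      add_mem' := by
        intro a b ha hb k hk
        simp [add_mul, ha k hk, hb k hk]
      smul_mem' := by
        intro a b hb k hk
        simp [mul_assoc, hb k hk] }
  obtain ⟨n, hn⟩ := IsArtinian.monotone_stabilizes (R := A) (M := L)
    ⟨fun t => OrderDual.toDual (f t), fun s t hst y hy k hk => hy k (lt_of_lt_of_le hk hst)⟩
  have h1 : f n = f (n + 1) := hn (n + 1) (by omega)
  have h2 : (⟨η n, hL n⟩ : L) ∈ f n := fun k hk => hη.orth _ _ (by omega)
  rw [h1] at h2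
  exact hη.ne n ((hη.id n).symm.trans (h2 n (by omega)))

lemma art_add {L L₁ L₂ : Submodule A A} (h : L ≤ L₁ ⊔ L₂) (h1 : IsArtinian A L₁)
    (h2 : IsArtinian A L₂) : IsArtinian A L := isArtinian_of_le h

lemma split (hA : ∀ a : A, ∃ b, a = a * b * a) (p : A) (hp : p * p = p)
    (h : ¬ IsArtinian A (Submodule.span A {p})) :
    ∃ p₁ p₂ : A, p = p₁ + p₂ ∧ p₁ ≠ 0 ∧ p₂ ≠ 0 ∧ p₁ * p₁ = p₁ ∧ p₂ * p₂ = p₂ ∧ p₁ * p₂ = 0 ∧
      p₂ * p₁ = 0 := by
  have : ∃ T : Submodule A (Submodule.span A {p}), T ≠ ⊥ ∧ T ≠ ⊤ := by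
    by_contra hc
    push Not at hc
    apply h
    have : Finite (Submodule A (Submodule.span A {p})) := by
      refine Finite.of_surjective (fun b : Bool => if b then ⊤ else ⊥) fun T => ?_
      by_cases hT : T = ⊥
      · exact ⟨false, by simp [hT]⟩
      · exact ⟨true, by simp [hc T hT]⟩
    exact Finite.to_wellFoundedLT
  obtain ⟨T, h1, h2⟩ := this
  obtain ⟨⟨y, hy⟩, hyT, hy0⟩ := (Submodule.ne_bot_iff T).1 h1
  have hyp : y * p = y := by
    obtain ⟨a, rfl⟩ := Submodule.mem_span_singleton.1 hy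
    rw [smul_eq_mul, mul_assoc, hp]
  obtain ⟨w, hw⟩ := hA y
  have e1 : y * (p * w * y) = y := by rw [← mul_assoc, ← mul_assoc, hyp, ← hw]
  have e2 : p * w * y * (p * w * y) = p * w * y := by rw [mul_assoc (p * w), e1]
  have e3 : p * (p * w * y) = p * w * y := by rw [← mul_assoc, ← mul_assoc, hp]
  have e4 : p * w * y * p = p * w * y := by rw [mul_assoc, hyp]
  refine ⟨p * w * y, p - p * w * y, by abel, ?_, ?_, e2, ?_, ?_, ?_⟩
  · intro h0
    rw [h0, mul_zero] at e1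
    exact hy0 (Subtype.ext e1.symm)
  · intro h0
    apply h2
    rw [eq_top_iff]
    rintro ⟨z, hz⟩ _
    obtain ⟨a, rfl⟩ := Submodule.mem_span_singleton.1 hz
    have := T.smul_mem (a * (p * w)) hyT
    convert this using 1
    apply Subtype.ext
    simp only [smul_eq_mul, SetLike.mk_smul_mk]
    rw [mul_assoc, ← sub_eq_zero.1 h0]
  · rw [sub_mul, mul_sub, mul_sub, hp, e2, e3, e4]; abel
  · rw [mul_sub, e2, e4, sub_self]
  · rw [sub_mul, e2, e3, sub_self]

lemma span_add_le (x y : A) :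
    Submodule.span A {x + y} ≤ Submodule.span A {x} ⊔ Submodule.span A {y} := by
  rw [Submodule.span_singleton_le_iff_mem]
  exact Submodule.add_mem_sup (Submodule.mem_span_singleton_self x)
    (Submodule.mem_span_singleton_self y)

lemma ex_orth (hA : ∀ a : A, ∃ b, a = a * b * a) (h : ¬ IsArtinianRing A) :
    ∃ ε : ℕ → A, Orth ε := by
  let S := {p : A // p * p = p ∧ ¬ IsArtinian A (Submodule.span A {p})}
  have step : ∀ s : S, ∃ (e : A) (t : S), e ≠ 0 ∧ e * e = e ∧ s.1 * e = e ∧ e * s.1 = e ∧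
      e * t.1 = 0 ∧ t.1 * e = 0 ∧ s.1 * t.1 = t.1 ∧ t.1 * s.1 = t.1 := by
    rintro ⟨p, hp, hn⟩
    obtain ⟨p₁, p₂, rfl, a1, a2, a3, a4, a5, a6⟩ := split hA p hp hn
    by_cases h2 : IsArtinian A (Submodule.span A {p₂})
    · have h1 : ¬ IsArtinian A (Submodule.span A {p₁}) :=
        fun h1 => hn (art_add (span_add_le _ _) h1 h2)
      exact ⟨p₂, ⟨p₁, a3, h1⟩, a2, a4, by simp [add_mul, *], by simp [mul_add, *], a6, a5,
        by simp [add_mul, *], by simp [mul_add, *]⟩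
    · exact ⟨p₁, ⟨p₂, a4, h2⟩, a1, a3, by simp [add_mul, *], by simp [mul_add, *], a5, a6,
        by simp [add_mul, *], by simp [mul_add, *]⟩
  choose e t h1 h2 h3 h4 h5 h6 h7 h8 using step
  have h0 : ¬ IsArtinian A (Submodule.span A {(1 : A)}) := by
    intro h'
    apply h
    have : Submodule.span A {(1 : A)} = ⊤ := Ideal.span_singleton_one
    rw [this] at h'
    exact isArtinian_of_linearEquiv Submodule.topEquiv
  let s : ℕ → S := fun n => t^[n] ⟨1, one_mul 1, h0⟩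
  have hs : ∀ n, s (n + 1) = t (s n) := fun n => Function.iterate_succ_apply' _ _ _
  have key : ∀ j k, j < k → e (s j) * (s k).1 = 0 ∧ (s k).1 * e (s j) = 0 := by
    intro j k hjk
    induction k, hjk using Nat.le_induction with
    | base => rw [hs]; exact ⟨h5 _, h6 _⟩
    | succ k _ ih =>
      rw [hs]
      constructor
      · rw [← h7, ← mul_assoc, ih.1, zero_mul]
      · rw [← h8, mul_assoc, ih.2, mul_zero]
  refine ⟨fun n => e (s n), fun k => h1 _, fun k => h2 _, fun j k hjk => ?_⟩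
  rcases lt_or_gt_of_ne hjk with h | h
  · rw [← h3 (s k), ← mul_assoc, (key j k h).1, zero_mul]
  · rw [← h4 (s j), mul_assoc, (key k j h).2, mul_zero]

variable (φ : RingAut A) (ε : ℕ → A)

def N (m : ℕ) (x : A) : Submodule A A :=
  Submodule.span A {y | ∃ k n : ℕ, m ≤ k ∧ m ≤ n ∧ ∃ b, y = (φ ^ (-(n : ℤ))) (ε k) * b * x}

def Inv (x : A) : Prop := ∀ m, ¬ IsArtinian A (N φ ε m x)

lemma N_anti {m m' : ℕ} (h : m ≤ m') (x : A) : N φ ε m' x ≤ N φ ε m x :=
  Submodule.span_mono fun _ ⟨k, n, h1, h2, h3⟩ => ⟨k, n, h.trans h1, h.trans h2, h3⟩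

lemma N_add (m : ℕ) (x y : A) : N φ ε m (x + y) ≤ N φ ε m x ⊔ N φ ε m y := by
  rw [N, Submodule.span_le]
  rintro _ ⟨k, n, h1, h2, b, rfl⟩
  rw [mul_add]
  exact Submodule.add_mem_sup (Submodule.subset_span ⟨k, n, h1, h2, b, rfl⟩)
    (Submodule.subset_span ⟨k, n, h1, h2, b, rfl⟩)

lemma N_le (m : ℕ) (x : A) : N φ ε m x ≤ Submodule.span A {x} := by
  rw [N, Submodule.span_le]
  rintro _ ⟨k, n, h1, h2, b, rfl⟩
  exact Submodule.mem_span_singleton.2 ⟨_, rfl⟩

lemma inv_add {x y : A} (h : Inv φ ε (x + y)) : Inv φ ε x ∨ Inv φ ε y := by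
  by_contra hc
  simp only [Inv, not_or, not_forall, not_not] at hc
  obtain ⟨⟨m, hm⟩, ⟨m', hm'⟩⟩ := hc
  exact h (max m m') (art_add (N_add φ ε _ x y)
    (isArtinian_of_le (N_anti φ ε (le_max_left _ _) x))
    (isArtinian_of_le (N_anti φ ε (le_max_right _ _) y)))

lemma inv_one (hε : Orth ε) : Inv φ ε 1 := by
  intro m
  refine not_art _ (fun k => (φ ^ (-(m : ℤ))) (ε (m + k))) ⟨fun k => ?_, fun k => ?_, ?_⟩ ?_
  · simpa using hε.ne _
  · rw [← map_mul, hε.id]
  · intro j k hjk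
    rw [← map_mul, hε.orth _ _ (by omega), map_zero]
  · intro k
    exact Submodule.subset_span ⟨m + k, m, by omega, le_rfl, 1, by simp⟩

lemma step (hA : ∀ a : A, ∃ b, a = a * b * a) (hε : Orth ε) (q : A) (hq : q * q = q)
    (hi : Inv φ ε q) (m : ℕ) : ∃ (k n : ℕ) (b q' : A), m ≤ k ∧ m ≤ n ∧ b ≠ 0 ∧
      (φ ^ (-(n : ℤ))) (ε k) * b = b ∧ b * q = b ∧ q' * q' = q' ∧ q * q' = q' ∧ b * q' = 0 ∧
      Inv φ ε q' := by
  have : ∃ k n : ℕ, m ≤ k ∧ m ≤ n ∧ ∃ b, (φ ^ (-(n : ℤ))) (ε k) * b * q ≠ 0 := by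
    by_contra hc
    push Not at hc
    apply hi m
    have : N φ ε m q = ⊥ := by
      rw [N, Submodule.span_eq_bot]
      rintro _ ⟨k, n, h1, h2, b, rfl⟩
      exact hc k n h1 h2 b
    rw [this]
    infer_instance
  obtain ⟨k, n, h1, h2, b, hb⟩ := this
  obtain ⟨a, ha⟩ : ∃ a, a = (φ ^ (-(n : ℤ))) (ε k) * b * q := ⟨_, rfl⟩
  rw [← ha] at hb
  have a1 : (φ ^ (-(n : ℤ))) (ε k) * a = a := by
    rw [ha, ← mul_assoc, ← mul_assoc, ← map_mul, hε.id]
  have a2 : a * q = a := by rw [ha, mul_assoc, hq]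
  obtain ⟨v, hv⟩ := hA a
  obtain ⟨p, hp⟩ : ∃ p, p = q * v * a := ⟨_, rfl⟩
  have p1 : a * p = a := by rw [hp, ← mul_assoc, ← mul_assoc, a2, ← hv]
  have p2 : p * p = p := by
    nth_rewrite 1 [hp]
    rw [mul_assoc, p1, ← hp]
  have p3 : q * p = p := by rw [hp, ← mul_assoc, ← mul_assoc, hq]
  have p4 : p * q = p := by rw [hp, mul_assoc, a2]
  have hi' : Inv φ ε (q - p + p) := by rwa [sub_add_cancel]
  rcases inv_add φ ε hi' with h | h
  · refine ⟨k, n, a, q - p, h1, h2, hb, a1, a2, ?_, ?_, ?_, h⟩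
    · rw [sub_mul, mul_sub, mul_sub, hq, p2, p3, p4]; abel
    · rw [mul_sub, hq, p3]
    · rw [mul_sub, a2, p1, sub_self]
  · have hn : ¬ IsArtinian A (Submodule.span A {p}) :=
      fun h' => h 0 (isArtinian_of_le (N_le φ ε 0 p))
    have fin : ∀ p₁ p₂ : A, p = p₁ + p₂ → p₁ ≠ 0 → p₁ * p₁ = p₁ → p₂ * p₂ = p₂ → p₁ * p₂ = 0 →
        p₂ * p₁ = 0 → Inv φ ε p₂ → ∃ (k n : ℕ) (b q' : A), m ≤ k ∧ m ≤ n ∧ b ≠ 0 ∧
      (φ ^ (-(n : ℤ))) (ε k) * b = b ∧ b * q = b ∧ q' * q' = q' ∧ q * q' = q' ∧ b * q' = 0 ∧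
      Inv φ ε q' := by
      intro p₁ p₂ e c1 c3 c4 c5 c6 hI
      have d1 : p * p₁ = p₁ := by rw [e, add_mul, c3, c6, add_zero]
      have d2 : p₁ * p = p₁ := by rw [e, mul_add, c3, c5, add_zero]
      have d3 : p * p₂ = p₂ := by rw [e, add_mul, c4, c5, zero_add]
      refine ⟨k, n, a * p₁, p₂, h1, h2, ?_, ?_, ?_, c4, ?_, ?_, hI⟩
      · intro h0
        apply c1
        rw [← d1, hp, mul_assoc, h0, mul_zero]
      · rw [← mul_assoc, a1]
      · rw [← d2, mul_assoc, mul_assoc, p4]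
      · rw [← d3, ← mul_assoc, p3]
      · rw [mul_assoc, c5, mul_zero]
    obtain ⟨p₁, p₂, e, c1, c2, c3, c4, c5, c6⟩ := split hA p p2 hn
    rcases inv_add φ ε (e ▸ h) with h' | h'
    · exact fin p₂ p₁ (by rw [e, add_comm]) c2 c4 c3 c6 c5 h'
    · exact fin p₁ p₂ e c1 c3 c4 c5 c6 h'

lemma seq (hA : ∀ a : A, ∃ b, a = a * b * a) (hε : Orth ε) :
    ∃ (k n : ℕ → ℕ) (b q : ℕ → A), StrictMono k ∧ StrictMono n ∧ (∀ t, b t ≠ 0) ∧
      (∀ t, (φ ^ (-(n t : ℤ))) (ε (k t)) * b t = b t) ∧ (∀ t, b t * q t = b t) ∧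
      ∀ j t, j < t → b j * q t = 0 := by
  let S := {s : A × ℕ // s.1 * s.1 = s.1 ∧ Inv φ ε s.1}
  have := fun s : S => step φ ε hA hε s.1.1 s.2.1 s.2.2 s.1.2
  choose k n b q' h1 h2 h3 h4 h5 h6 h7 h8 h9 using this
  let t : S → S := fun s => ⟨(q' s, max (k s) (n s) + 1), h6 s, h9 s⟩
  let s : ℕ → S := fun i => t^[i] ⟨(1, 0), one_mul 1, inv_one φ ε hε⟩
  have hs : ∀ i, s (i + 1) = t (s i) := fun i => Function.iterate_succ_apply' _ _ _
  refine ⟨fun i => k (s i), fun i => n (s i), fun i => b (s i), fun i => (s i).1.1,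
    strictMono_nat_of_lt_succ fun i => ?_, strictMono_nat_of_lt_succ fun i => ?_,
    fun i => h3 _, fun i => h4 _, fun i => h5 _, ?_⟩
  · have := h1 (s (i + 1))
    have e : (s (i + 1)).1.2 = max (k (s i)) (n (s i)) + 1 := by rw [hs]
    omega
  · have := h2 (s (i + 1))
    have e : (s (i + 1)).1.2 = max (k (s i)) (n (s i)) + 1 := by rw [hs]
    omega
  · intro j i hji
    induction i, hji using Nat.le_induction with
    | base =>
      change b (s j) * (s (j + 1)).1.1 = 0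
      rw [hs]; exact h8 _
    | succ i _ ih =>
      have e : (s (i + 1)).1.1 = q' (s i) := by rw [hs]
      change b (s j) * (s (i + 1)).1.1 = 0
      rw [e, ← h7, ← mul_assoc]
      change b (s j) * (s i).1.1 = 0 at ih
      rw [ih, zero_mul]

end A

namespace IsSL
variable {A R : Type} [Ring A] [Ring R] {φ : RingAut A} {c : R →+ ℤ → A} (h : IsSL φ c)
include h

lemma regA (hR : ∀ r : R, ∃ s, r = r * s * r) (a : A) : ∃ b, a = a * b * a := by
  obtain ⟨s, hs⟩ := hR (h.mon 0 a)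
  refine ⟨c s 0, ?_⟩
  have := congrArg (fun r => c r 0) hs
  simp only [h.mul_mon, h.mon_mul, h.c_mon] at this
  simpa using this

lemma artA (hR : ∀ r : R, ∃ s, r = r * s * r) : IsArtinianRing A := by
  classical
  by_contra hn
  have hA := h.regA hR
  obtain ⟨ε, hε⟩ := ex_orth hA hn
  obtain ⟨k, n, b, q, hk, hn, b1, b2, b3, b4⟩ := seq φ ε hA hε
  have hinj : Function.Injective fun t => (n t : ℤ) := fun s t e => hn.injective (by simpa using e)
  let F : ℤ → A := Function.extend (fun t => (n t : ℤ)) (fun t => (φ ^ (n t : ℤ)) (b t)) 0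
  have F1 : ∀ t, F (n t) = (φ ^ (n t : ℤ)) (b t) := fun t => hinj.extend_apply _ _ t
  have F2 : ∀ i, (¬ ∃ t, (n t : ℤ) = i) → F i = 0 := fun i hi => Function.extend_apply' _ _ _ hi
  obtain ⟨f, hf⟩ := h.ex F 0 (fun i hi => F2 i (by rintro ⟨t, ht⟩; omega))
  obtain ⟨g, hg⟩ := hR f
  have a1 : ∀ t, ε (k t) * (φ ^ (n t : ℤ)) (b t) = (φ ^ (n t : ℤ)) (b t) := by
    intro t
    conv_rhs => rw [← b2 t, map_mul, zp_neg']
  have e1 : ∀ t, h.mon 0 (ε (k t)) * f = h.mon (n t) ((φ ^ (n t : ℤ)) (b t)) := by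
    intro t
    refine h.ext fun i => ?_
    rw [h.mon_mul, h.c_mon, hf, zp_zero, sub_zero]
    by_cases hi : ∃ j, (n j : ℤ) = i
    · obtain ⟨j, rfl⟩ := hi
      rw [F1]
      by_cases hj : j = t
      · subst hj; rw [a1, Pi.single_eq_same]
      · rw [Pi.single_eq_of_ne (fun e => hj (hinj e)), ← a1, ← mul_assoc,
          hε.orth _ _ (fun e => hj (hk.injective e).symm), zero_mul]
    · rw [F2 i hi, mul_zero, Pi.single_eq_of_ne]
      rintro rfl
      exact hi ⟨t, rfl⟩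
  have e2 : ∀ t, b t = b t * c (g * f) 0 := by
    intro t
    have : h.mon (n t) ((φ ^ (n t : ℤ)) (b t)) = h.mon (n t) ((φ ^ (n t : ℤ)) (b t)) * (g * f) := by
      rw [← e1, mul_assoc, ← mul_assoc f, ← hg]
    have h2 := congrArg (fun r => c r (n t)) this
    simp only [h.mon_mul, h.c_mon, Pi.single_eq_same, sub_self, ← map_mul] at h2
    exact (φ ^ (n t : ℤ)).injective h2
  obtain ⟨d, hd⟩ := h.bdd g
  let T := (-d).toNat + 1
  have e3 : c (g * f) 0 * q T = 0 := by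
    rw [h.mul]
    refine finsum_induction (fun x => x * q T = 0) (zero_mul _)
      (fun x y hx hy => by rw [add_mul, hx, hy, add_zero]) fun i => ?_
    by_cases hi : i < d
    · rw [hd i hi, zero_mul, zero_mul]
    rw [hf]
    by_cases hj : ∃ j, (n j : ℤ) = 0 - i
    · obtain ⟨j, hj⟩ := hj
      have hjT : j < T := by
        have := hn.le_apply (x := j)
        omega
      have : i = -(n j : ℤ) := by omega
      rw [← hj, F1, this, zp_neg, mul_assoc, b4 j T hjT, mul_zero]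
    · rw [F2 _ hj, map_zero, mul_zero, zero_mul]
  apply b1 T
  rw [← b3 T, e2 T, mul_assoc, e3, mul_zero]

lemma ssA (hR : ∀ r : R, ∃ s, r = r * s * r) : IsSemisimpleRing A := by
  have := h.artA hR
  rw [IsArtinianRing.isSemisimpleRing_iff_jacobson, ← Ideal.jacobson_bot, eq_bot_iff]
  intro a ha
  obtain ⟨b, hb⟩ := h.regA hR a
  rw [Ideal.mem_bot]
  have h2 : Ring.jacobson A = Ideal.jacobson ⊥ := Ideal.jacobson_bot.symm
  have h3 : a * b ∈ Ideal.jacobson (⊥ : Ideal A) := by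
    rw [← h2] at ha ⊢
    exact Ideal.mul_mem_right _ _ ha
  obtain ⟨w, hw⟩ := Ideal.mem_jacobson_iff.1 h3 (-1)
  rw [Ideal.mem_bot] at hw
  have h4 : (w * -1 * (a * b) + w - 1) * a = 0 := by rw [hw, zero_mul]
  have h5 : (w * -1 * (a * b) + w - 1) * a = w * (a - a * b * a) - a := by noncomm_ring
  rw [h5, ← hb, sub_self, mul_zero, zero_sub, neg_eq_zero] at h4
  exact h4

theorem ssR (hR : ∀ r : R, ∃ s, r = r * s * r) : IsSemisimpleRing R := by
  have := h.ssA hR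
  refine { exists_isCompl := fun I => ?_ }
  let L : Ideal A :=
    { carrier := {a | ∃ f ∈ I, (∀ i < 0, c f i = 0) ∧ c f 0 = a}
      zero_mem' := ⟨0, I.zero_mem, by simp, by simp⟩
      add_mem' := by
        rintro _ _ ⟨f, hf, f1, rfl⟩ ⟨g, hg, g1, rfl⟩
        exact ⟨f + g, I.add_mem hf hg, fun i hi => by simp [f1 i hi, g1 i hi], by simp⟩
      smul_mem' := by
        rintro a _ ⟨f, hf, f1, rfl⟩
        exact ⟨h.mon 0 a * f, I.smul_mem _ hf, fun i hi => by simp [h.mon_mul, f1 i hi],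
          by simp [h.mon_mul]⟩ }
  obtain ⟨e, he, hL⟩ := IsSemisimpleRing.ideal_eq_span_idempotent L
  have he' : e * e = e := he
  have : e ∈ L := by rw [hL]; exact Ideal.subset_span rfl
  obtain ⟨g, hg, g1, g2⟩ := this
  obtain ⟨E, hE⟩ : ∃ E, E = h.mon 0 e := ⟨_, rfl⟩
  have hEE : E * E = E := by rw [hE, h.mon_mon]; simp [he']
  obtain ⟨u, hu⟩ : ∃ u, u = E * g + (1 - E) := ⟨_, rfl⟩
  have u1 : ∀ i < 0, c u i = 0 := by
    intro i hi
    simp [hu, hE, h.mon_mul, g1 i hi, h.c_one, h.c_mon, Pi.single_eq_of_ne hi.ne]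
  have u2 : c u 0 = 1 := by
    simp [hu, hE, h.mon_mul, g2, h.c_one, h.c_mon, he']
  have u3 : E * u = E * g := by
    rw [hu, mul_add, ← mul_assoc, hEE, mul_sub, mul_one, hEE, sub_self, add_zero]
  obtain ⟨v, hv⟩ := hR u
  have v1 : v * u = 1 := by
    by_contra hne
    obtain ⟨d, d1, d2⟩ := h.ex_lead (sub_ne_zero.2 hne)
    have := h.lead u1 d2
    rw [mul_sub, ← mul_assoc, ← hv, mul_one, sub_self, u2, one_mul, zp_zero, map_zero] at this
    exact d1 this.symm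
  have v2 : u * v = 1 := by
    by_contra hne
    obtain ⟨d, d1, d2⟩ := h.ex_lead (sub_ne_zero.2 hne)
    have := h.lead d2 u1
    rw [sub_mul, ← hv, one_mul, sub_self, u2, map_one, mul_one, map_zero] at this
    exact d1 this.symm
  have claim : ∀ f ∈ I, f * v * (1 - E) = 0 := by
    intro f hf
    by_contra hne
    obtain ⟨w, hw⟩ : ∃ w, w = f * v * (1 - E) := ⟨_, rfl⟩
    rw [← hw] at hne
    have w1 : w * u ∈ I := by
      have : w * u = f - f * v * E * g := by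
        rw [hw, mul_sub, sub_mul, mul_one, mul_assoc f, v1, mul_one, mul_assoc _ E, u3,
          ← mul_assoc]
      rw [this]
      exact I.sub_mem hf (I.smul_mem _ hg)
    have w2 : w * E = 0 := by rw [hw, mul_assoc, sub_mul, one_mul, hEE, sub_self, mul_zero]
    obtain ⟨d, d1, d2⟩ := h.ex_lead hne
    obtain ⟨w', hw'⟩ : ∃ w', w' = h.mon (-d) 1 * w := ⟨_, rfl⟩
    have x1 : ∀ i < 0, c w' i = 0 := fun i hi => by
      rw [hw', h.mon_mul, d2 _ (by omega), map_zero, mul_zero]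
    have x2 : c w' 0 ≠ 0 := by
      rw [hw', h.mon_mul]
      simpa using d1
    have x3 : c w' 0 ∈ L := by
      refine ⟨w' * u, ?_, fun i hi => h.low x1 u1 i (by omega), ?_⟩
      · rw [hw', mul_assoc]; exact I.smul_mem _ w1
      · have := h.lead x1 u1
        rw [add_zero, u2, map_one, mul_one] at this
        exact this
    rw [hL, Ideal.mem_span_singleton'] at x3
    obtain ⟨a, ha⟩ := x3
    have x4 : c (w' * E) 0 = 0 := by rw [hw', mul_assoc, w2, mul_zero, map_zero]; rfl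
    rw [hE, h.mul_mon, sub_zero, zp_zero, ← ha, mul_assoc, he', ha] at x4
    exact x2 x4
  refine ⟨Submodule.span R {(1 - E) * u}, ?_, ?_⟩
  · rw [Submodule.disjoint_def]
    intro f hf hf'
    obtain ⟨r, rfl⟩ := Submodule.mem_span_singleton.1 hf'
    have := claim _ hf
    rw [smul_eq_mul, mul_assoc r, mul_assoc _ u, v2, mul_one, mul_assoc, mul_sub (1 - E), mul_one,
      sub_mul, one_mul, hEE, sub_self, sub_zero] at this
    rw [smul_eq_mul, ← mul_assoc, this, zero_mul]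
  · rw [codisjoint_iff, Ideal.eq_top_iff_one]
    have : v * E * g + v * ((1 - E) * u) = 1 := by
      rw [mul_assoc, ← u3, ← mul_add, ← add_mul, add_sub_cancel, one_mul, v1]
    have h2 : v * E * g + v * ((1 - E) * u) ∈ I ⊔ Submodule.span R {(1 - E) * u} :=
      Submodule.add_mem_sup (I.smul_mem _ hg)
        (Submodule.smul_mem _ v (Submodule.mem_span_singleton_self _))
    rwa [this] at h2

end IsSL

end Pool.Agent.H.MP_20d9b9_al
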